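import Pool.Agent.H43.G.R_seed8.H300R2.BH.Defs

/-!
Rankin bound for the truncated Euler product (task T9 of the project BH).
-/

namespace Pool.Agent.H338R2.BH

open Finset Polynomial
open Pool.Agent.H300R2.BH

lemma rho_le_p (F : ℤ[X]) (p : ℕ) : rho F p ≤ p := by
  unfold rho
  exact (card_filter_le _ _).trans (by simp)

lemma rho_le_deg (F : ℤ[X]) (p j : ℕ) (hp : p.Prime) (hF : F.natDegree ≤ j) (h : rho F p ≠ p) :
    rho F p ≤ j := by
  haveI : Fact p.Prime := ⟨hp⟩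
  set G : (ZMod p)[X] := F.map (Int.castRingHom (ZMod p)) with hG
  have hev : ∀ k : ℕ, G.eval (k : ZMod p) = ((F.eval (k : ℤ) : ℤ) : ZMod p) := by
    intro k
    have := Polynomial.eval_intCast_map (Int.castRingHom (ZMod p)) F (k : ℤ)
    simpa [hG] using this
  have hiff : ∀ k : ℕ, (p : ℤ) ∣ F.eval (k : ℤ) ↔ G.eval (k : ZMod p) = 0 := by
    intro k
    rw [hev]
    exact (ZMod.intCast_zmod_eq_zero_iff_dvd _ _).symm
  have hG0 : G ≠ 0 := by
    intro h0
    apply h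
    unfold rho
    rw [Finset.filter_true_of_mem]
    · simp
    · intro k _
      rw [hiff, h0]
      simp
  have h1 : rho F p ≤ G.roots.toFinset.card := by
    unfold rho
    apply Finset.card_le_card_of_injOn (fun k : ℕ => (k : ZMod p))
    · intro k hk
      have hk' := (Finset.mem_filter.1 (Finset.mem_coe.1 hk)).2
      simp only [Finset.mem_coe, Multiset.mem_toFinset]
      rw [Polynomial.mem_roots hG0]
      exact (hiff k).1 hk'
    · intro a ha b hb hab
      have ha' := Finset.mem_range.1 (Finset.mem_filter.1 (Finset.mem_coe.1 ha)).1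
      have hb' := Finset.mem_range.1 (Finset.mem_filter.1 (Finset.mem_coe.1 hb)).1
      have := (ZMod.natCast_eq_natCast_iff' a b p).1 hab
      rwa [Nat.mod_eq_of_lt ha', Nat.mod_eq_of_lt hb'] at this
  have h2 : G.roots.toFinset.card ≤ G.natDegree :=
    (Multiset.toFinset_card_le _).trans (Polynomial.card_roots' G)
  have h3 : G.natDegree ≤ F.natDegree := Polynomial.natDegree_map_le
  omega

lemma tt_bad (F : ℤ[X]) (p : ℕ) (hp : p.Prime) (h : rho F p = p) : |tt F p| = 1 := by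
  unfold tt
  rw [h]
  have h2 : (2 : ℝ) ≤ p := by exact_mod_cast hp.two_le
  have : (1 - (p : ℝ)) / ((p : ℝ) - 1) = -1 := by
    rw [div_eq_iff (by linarith)]
    ring
  rw [this]
  simp

lemma tt_good (F : ℤ[X]) (p j : ℕ) (hp : p.Prime) (hj : 1 ≤ j) (hF : F.natDegree ≤ j)
    (h : rho F p ≠ p) : |tt F p| ≤ j / ((p : ℝ) - 1) := by
  unfold tt
  have h2 : (2 : ℝ) ≤ p := by exact_mod_cast hp.two_le
  rw [abs_div, abs_of_pos (show (0 : ℝ) < (p : ℝ) - 1 by linarith)]
  apply div_le_div_of_nonneg_right _ (by linarith)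
  have h3 : (rho F p : ℝ) ≤ j := by exact_mod_cast rho_le_deg F p j hp hF h
  have h4 : (0 : ℝ) ≤ rho F p := Nat.cast_nonneg _
  have h5 : (1 : ℝ) ≤ j := by exact_mod_cast hj
  rw [abs_le]
  constructor <;> linarith

lemma SS_eq (z : ℕ) (F : ℤ[X]) :
    SS z F = ∏ p ∈ (Icc 1 z).filter Nat.Prime, (1 + tt F p) := by
  unfold SS
  apply Finset.prod_congr rfl
  intro p hp
  have hp' := (Finset.mem_filter.1 hp).2
  have h2 : (2 : ℝ) ≤ p := by exact_mod_cast hp'.two_le
  unfold tt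
  have h3 : (p : ℝ) ≠ 0 := by linarith
  have h4 : (p : ℝ) - 1 ≠ 0 := by linarith
  field_simp
  ring

/-- primes product and prime factors -/
lemma prod_primes (z : ℕ) (s : Finset ℕ) (hs : s ⊆ (Icc 1 z).filter Nat.Prime) :
    (∏ p ∈ s, p).primeFactors = s ∧ Squarefree (∏ p ∈ s, p) ∧ 1 ≤ ∏ p ∈ s, p := by
  have hpr : ∀ p ∈ s, p.Prime := fun p hp => (Finset.mem_filter.1 (hs hp)).2
  refine ⟨Nat.primeFactors_prod hpr, ?_, ?_⟩
  · apply Finset.squarefree_prod_of_pairwise_isCoprime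
    · intro a ha b hb hab
      exact Nat.coprime_iff_isRelPrime.1 ((Nat.coprime_primes (hpr a ha) (hpr b hb)).2 hab)
    · intro a ha
      exact (hpr a ha).squarefree
  · exact Finset.prod_pos fun p hp => (hpr p hp).pos

lemma sum_eq (F : ℤ[X]) (z Z : ℕ) :
    ∑ q ∈ (Icc 1 Z).filter (fun q => Squarefree q ∧ ∀ p ∈ q.primeFactors, p ≤ z), TT F q =
      ∑ s ∈ ((Icc 1 z).filter Nat.Prime).powerset.filter (fun s => ∏ p ∈ s, p ≤ Z),
        ∏ p ∈ s, tt F p := by
  symm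
  refine Finset.sum_bij' (fun s _ => ∏ p ∈ s, p) (fun q _ => q.primeFactors) ?_ ?_ ?_ ?_ ?_
  · intro s hs
    rw [Finset.mem_filter, Finset.mem_powerset] at hs
    obtain ⟨h1, h2, h3⟩ := prod_primes z s hs.1
    rw [Finset.mem_filter, Finset.mem_Icc]
    refine ⟨⟨h3, hs.2⟩, h2, ?_⟩
    rw [h1]
    intro p hp
    exact (Finset.mem_Icc.1 (Finset.mem_filter.1 (hs.1 hp)).1).2
  · intro q hq
    rw [Finset.mem_filter, Finset.mem_Icc] at hq
    rw [Finset.mem_filter, Finset.mem_powerset]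
    refine ⟨?_, ?_⟩
    · intro p hp
      rw [Finset.mem_filter, Finset.mem_Icc]
      exact ⟨⟨(Nat.prime_of_mem_primeFactors hp).one_le, hq.2.2 p hp⟩,
        Nat.prime_of_mem_primeFactors hp⟩
    · rw [Nat.prod_primeFactors_of_squarefree hq.2.1]
      exact hq.1.2
  · intro s hs
    rw [Finset.mem_filter, Finset.mem_powerset] at hs
    exact (prod_primes z s hs.1).1
  · intro q hq
    rw [Finset.mem_filter, Finset.mem_Icc] at hq
    exact Nat.prod_primeFactors_of_squarefree hq.2.1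
  · intro s hs
    rw [Finset.mem_filter, Finset.mem_powerset] at hs
    unfold TT
    rw [(prod_primes z s hs.1).1]

lemma factor_le (F : ℤ[X]) (j z p : ℕ) (hj : 1 ≤ j) (hF : F.natDegree ≤ j) (hp : p.Prime)
    (hz : 2 ≤ z) (hpz : p ≤ z) :
    1 + (p : ℝ) ^ (1 / Real.log z) * |tt F p| ≤
      (if rho F p = p then (p : ℝ) ^ 2 else 1) * Real.exp (3 * j * (1 / ((p : ℝ) - 1))) := by
  have h2 : (2 : ℝ) ≤ p := by exact_mod_cast hp.two_le
  have hlz : 0 < Real.log z := Real.log_pos (by exact_mod_cast hz)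
  have hp1 : (p : ℝ) ^ (1 / Real.log z) ≤ 3 := by
    rw [Real.rpow_def_of_pos (by linarith)]
    have : Real.log p * (1 / Real.log z) ≤ 1 := by
      rw [mul_one_div, div_le_one hlz]
      exact Real.log_le_log (by linarith) (by exact_mod_cast hpz)
    calc Real.exp (Real.log p * (1 / Real.log z)) ≤ Real.exp 1 := Real.exp_le_exp.2 this
      _ ≤ 3 := by
        have := Real.exp_one_lt_d9
        linarith
  have hp0 : 0 ≤ (p : ℝ) ^ (1 / Real.log z) := Real.rpow_nonneg (by linarith) _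
  have he : 0 ≤ 3 * (j : ℝ) * (1 / ((p : ℝ) - 1)) := by
    have : 0 < 1 / ((p : ℝ) - 1) := one_div_pos.2 (by linarith)
    positivity
  split_ifs with h
  · rw [tt_bad F p hp h]
    have h1 : 1 ≤ Real.exp (3 * j * (1 / ((p : ℝ) - 1))) := Real.one_le_exp he
    nlinarith
  · have h1 := tt_good F p j hp hj hF h
    have h3 : (p : ℝ) ^ (1 / Real.log z) * |tt F p| ≤ 3 * (j / ((p : ℝ) - 1)) :=
      mul_le_mul hp1 h1 (abs_nonneg _) (by norm_num)
    have h4 := Real.add_one_le_exp (3 * (j : ℝ) * (1 / ((p : ℝ) - 1)))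
    have h5 : 3 * ((j : ℝ) / ((p : ℝ) - 1)) = 3 * j * (1 / ((p : ℝ) - 1)) := by ring
    linarith

lemma sum_inv (z : ℕ) (hz : 2 ≤ z) :
    ∑ p ∈ (Icc 1 z).filter Nat.Prime, 1 / ((p : ℝ) - 1) ≤ 1 + Real.log z := by
  have h1 : ∑ p ∈ (Icc 1 z).filter Nat.Prime, 1 / ((p : ℝ) - 1) ≤
      ∑ i ∈ range z, ((i : ℝ) + 1)⁻¹ := by
    have h2 : ∑ p ∈ (Icc 1 z).filter Nat.Prime, 1 / ((p : ℝ) - 1) ≤
        ∑ i ∈ (((Icc 1 z).filter Nat.Prime).image (fun p : ℕ => p - 2)), (((i : ℕ) : ℝ) + 1)⁻¹ := by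
      rw [Finset.sum_image]
      · apply Finset.sum_le_sum
        intro p hp
        have := (Finset.mem_filter.1 hp).2.two_le
        rw [one_div]
        have h3 : ((p - 2 : ℕ) : ℝ) + 1 = (p : ℝ) - 1 := by
          rw [Nat.cast_sub this]
          push_cast
          ring
        rw [h3]
      · intro a ha b hb hab
        have h3 := (Finset.mem_filter.1 (Finset.mem_coe.1 ha)).2.two_le
        have h4 := (Finset.mem_filter.1 (Finset.mem_coe.1 hb)).2.two_le
        simp only at hab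
        omega
    refine h2.trans (Finset.sum_le_sum_of_subset_of_nonneg ?_ ?_)
    · intro i hi
      rw [Finset.mem_image] at hi
      obtain ⟨p, hp, rfl⟩ := hi
      rw [Finset.mem_filter, Finset.mem_Icc] at hp
      rw [Finset.mem_range]
      omega
    · intro i _ _
      positivity
  refine h1.trans ?_
  have h := harmonic_le_one_add_log z
  have h2 : ((harmonic z : ℚ) : ℝ) = ∑ i ∈ range z, ((i : ℝ) + 1)⁻¹ := by
    rw [harmonic]
    push_cast
    rfl
  rw [← h2]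
  exact h

theorem tail_pointwise (j : ℕ) (hj : 1 ≤ j) (F : ℤ[X]) (hF : F.natDegree ≤ j) (z Z : ℕ) (hz : 2 ≤ z)
    (hZ : 1 ≤ Z) (y : ℝ) (hy : 1 ≤ y) (hB : (bad z F : ℝ) ≤ y) :
    |SS z F - ∑ q ∈ (Icc 1 Z).filter (fun q => Squarefree q ∧ ∀ p ∈ q.primeFactors, p ≤ z),
      TT F q| ≤ Real.exp (-(Real.log Z / Real.log z)) * 100 ^ j * (z : ℝ) ^ (3 * j) * y ^ 2 := by
  set P := (Icc 1 z).filter Nat.Prime with hP
  have hlz : 0 < Real.log z := Real.log_pos (by exact_mod_cast hz)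
  have hZ0 : (0 : ℝ) < Z := by exact_mod_cast hZ
  have hz0 : (0 : ℝ) < z := by positivity
  set δ : ℝ := 1 / Real.log z with hδ
  have hδ0 : 0 ≤ δ := by positivity
  rw [SS_eq, sum_eq, Finset.prod_one_add]
  rw [← Finset.sum_filter_add_sum_filter_not P.powerset (fun s => ∏ p ∈ s, p ≤ Z)]
  rw [add_sub_cancel_left]
  have h1 : |∑ s ∈ P.powerset.filter (fun s => ¬ ∏ p ∈ s, p ≤ Z), ∏ p ∈ s, tt F p| ≤
      ∑ s ∈ P.powerset, (Z : ℝ) ^ (-δ) * ∏ p ∈ s, ((p : ℝ) ^ δ * |tt F p|) := by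
    refine (Finset.abs_sum_le_sum_abs _ _).trans ?_
    refine (Finset.sum_le_sum ?_).trans
      (Finset.sum_le_sum_of_subset_of_nonneg (Finset.filter_subset _ _) ?_)
    · intro s hs
      rw [Finset.mem_filter, not_le] at hs
      rw [Finset.abs_prod, Finset.prod_mul_distrib, Real.finsetProd_rpow _ _
        (fun p _ => Nat.cast_nonneg p), ← mul_assoc]
      have h0 : 0 ≤ ∏ p ∈ s, |tt F p| := Finset.prod_nonneg fun p _ => abs_nonneg _
      have h2 : 1 ≤ (Z : ℝ) ^ (-δ) * (∏ p ∈ s, (p : ℝ)) ^ δ := by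
        rw [Real.rpow_neg hZ0.le, inv_mul_eq_div, one_le_div (by positivity)]
        apply Real.rpow_le_rpow hZ0.le _ hδ0
        have h7 : ((Z : ℕ) : ℝ) ≤ ((∏ p ∈ s, p : ℕ) : ℝ) := by exact_mod_cast hs.2.le
        rwa [Nat.cast_prod] at h7
      nlinarith
    · intro s _ _
      have : 0 ≤ ∏ p ∈ s, ((p : ℝ) ^ δ * |tt F p|) := Finset.prod_nonneg fun p _ => by positivity
      positivity
  refine h1.trans ?_
  rw [← Finset.mul_sum, ← Finset.prod_one_add]
  have h2 : ∏ p ∈ P, (1 + (p : ℝ) ^ δ * |tt F p|) ≤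
      ∏ p ∈ P, ((if rho F p = p then (p : ℝ) ^ 2 else 1) *
        Real.exp (3 * j * (1 / ((p : ℝ) - 1)))) := by
    apply Finset.prod_le_prod
    · intro p _
      positivity
    · intro p hp
      rw [hP, Finset.mem_filter, Finset.mem_Icc] at hp
      exact factor_le F j z p hj hF hp.2 hz hp.1.2
  have h3 : ∏ p ∈ P, (if rho F p = p then (p : ℝ) ^ 2 else 1) ≤ y ^ 2 := by
    have : ∏ p ∈ P, (if rho F p = p then (p : ℝ) ^ 2 else 1) = ((bad z F : ℕ) : ℝ) ^ 2 := by
      unfold bad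
      rw [← Finset.prod_filter, hP, Finset.filter_filter]
      push_cast
      rw [Finset.prod_pow]
    rw [this]
    exact pow_le_pow_left₀ (Nat.cast_nonneg _) hB 2
  have h4 : ∏ p ∈ P, Real.exp (3 * j * (1 / ((p : ℝ) - 1))) ≤ 100 ^ j * (z : ℝ) ^ (3 * j) := by
    rw [← Real.exp_sum, ← Finset.mul_sum]
    have h5 := sum_inv z hz
    have h6 : 3 * (j : ℝ) * ∑ p ∈ P, 1 / ((p : ℝ) - 1) ≤ j * 3 + (3 * j : ℕ) * Real.log z := by
      have : (0 : ℝ) ≤ 3 * j := by positivity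
      push_cast
      nlinarith [mul_le_mul_of_nonneg_left h5 this]
    calc Real.exp (3 * (j : ℝ) * ∑ p ∈ P, 1 / ((p : ℝ) - 1)) ≤
        Real.exp (j * 3 + (3 * j : ℕ) * Real.log z) := Real.exp_le_exp.2 h6
      _ = Real.exp 3 ^ j * (z : ℝ) ^ (3 * j) := by
        rw [Real.exp_add, Real.exp_nat_mul, Real.exp_nat_mul, Real.exp_log hz0]
      _ ≤ 100 ^ j * (z : ℝ) ^ (3 * j) := by
        gcongr
        have h7 : Real.exp 3 = Real.exp 1 ^ 3 := by
          rw [← Real.exp_nat_mul]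
          norm_num
        rw [h7]
        have h8 := Real.exp_one_lt_d9
        have h9 : Real.exp 1 ^ 3 ≤ 3 ^ 3 :=
          pow_le_pow_left₀ (Real.exp_pos 1).le (by linarith) 3
        linarith
  have h5 : (Z : ℝ) ^ (-δ) = Real.exp (-(Real.log Z / Real.log z)) := by
    rw [Real.rpow_def_of_pos hZ0, hδ]
    congr 1
    ring
  rw [h5]
  calc Real.exp (-(Real.log Z / Real.log z)) * ∏ p ∈ P, (1 + (p : ℝ) ^ δ * |tt F p|) ≤
      Real.exp (-(Real.log Z / Real.log z)) * (y ^ 2 * (100 ^ j * (z : ℝ) ^ (3 * j))) := by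
        apply mul_le_mul_of_nonneg_left _ (Real.exp_pos _).le
        refine h2.trans ?_
        rw [Finset.prod_mul_distrib]
        exact mul_le_mul h3 h4 (Finset.prod_nonneg fun p _ => (Real.exp_pos _).le) (by positivity)
    _ = Real.exp (-(Real.log Z / Real.log z)) * 100 ^ j * (z : ℝ) ^ (3 * j) * y ^ 2 := by ring

end Pool.Agent.H338R2.BH
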